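import Pool.Agent.Hhelper49.GaussPret.Zero

set_option autoImplicit false

open Filter Topology

namespace Pool.Agent.Results.MP_41f28e_nt.Pretentious

open Pool.Agent.GaussPret

/-- The short square averages of `f` tend to `P(f)` (in the sense of the problem, for the centred
squares and for every dilated Folner sequence), if `P(f) ≠ 0`, or if `P(|f|) = 0`, or if `f`
pretends to be a real ray class character. -/
theorem result (f : GaussianInt → ℝ) (hf : IsBCM f)
    (h : PP f ≠ 0 ∨ PP (fun n => |f n|) = 0 ∨
      ∃ (m : ℕ) (χ : GaussianInt → ℝ), 0 < m ∧ IsRayChar m χ ∧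
        Summable (fun p : P1 => (1 - f p * χ p) / nm (p : GaussianInt))) :
    ShortAvg f sqr ∧ ∀ Φ : ℕ → Finset GaussianInt, IsDilatedFolner Φ → ShortAvg f Φ := by
  have key : ∀ Φ : ℕ → Finset GaussianInt, IsDilatedFolner Φ → ShortAvg f Φ := by
    intro Φ hΦ
    rcases h with h | h | ⟨m, χ, hm, hχ, hs⟩
    · refine pret_main hf isRayChar_one one_pos ?_ hΦ
      simpa only [mul_one] using summable_of_PP hf h
    · exact zero_main hf h hΦ
    · exact pret_main hf hχ hm hs hΦ
  exact ⟨key sqr isDilatedFolner_sqr, key⟩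

end Pool.Agent.Results.MP_41f28e_nt.Pretentious
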